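import Mathlib

set_option autoImplicit false

/-!
# Two finite statements about `ℤ/4`-colourings
-/

namespace Pool.Agent.ModFour

set_option synthInstance.maxSize 10000 in
set_option synthInstance.maxHeartbeats 400000 in
set_option maxRecDepth 100000 in
theorem core_odd : ∀ r : ZMod 4, (r = 1 ∨ r = 3) → ∀ s : ZMod 4, (s = 1 ∨ s = 3) →
    ∀ c : ZMod 4, c + c + s ≠ r →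
    ∀ b : ZMod 4, (b + b + s ≠ r ∧ b + c + s ≠ r) →
    ∀ e : ZMod 4, (e + e + s ≠ r ∧ c + e + s ≠ r) →
    ∀ f : ZMod 4, (b + f + s ≠ r ∧ c + f ≠ r ∧ e + f + s ≠ 2 + r) →
    ∀ a : ZMod 4, ¬ (a + b ≠ r ∧ a + c + s ≠ r ∧ a + f ≠ 2 + r ∧ a + f + s ≠ r) := by
  decide

set_option synthInstance.maxSize 100000 in
set_option synthInstance.maxHeartbeats 400000 in
set_option maxRecDepth 100000 in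
theorem core_even : ∀ r : ZMod 4, (r = 0 ∨ r = 2) → ∀ s : ZMod 4, (s = 1 ∨ s = 3) →
    ∀ v0 : ZMod 4,
    ∀ v1 : ZMod 4, (v0 + v1 ≠ r ∧ v0 + v1 + s ≠ 2 + r) →
    ∀ v2 : ZMod 4, (v0 + v2 ≠ 2 + r ∧ v1 + v2 + s ≠ 2 + r) →
    ∀ v3 : ZMod 4, (v0 + v3 + s ≠ r ∧ v1 + v3 + s ≠ r ∧ v2 + v3 ≠ r ∧ v2 + v3 + s ≠ 2 + r) →
    ∀ v4 : ZMod 4, (v0 + v4 + s ≠ r ∧ v1 + v4 + s ≠ 2 + r ∧ v2 + v4 ≠ 2 + r ∧ v3 + v4 + s ≠ 2 + r) →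
    ∀ v5 : ZMod 4, (v0 + v5 ≠ r ∧ v1 + v5 + s ≠ 2 + r ∧ v2 + v5 + s ≠ r ∧ v3 + v5 + s ≠ r ∧ v4 + v5 ≠ 2 + r) →
    ∀ v6 : ZMod 4, (v0 + v6 ≠ r ∧ v0 + v6 + s ≠ r ∧ v3 + v6 ≠ r ∧ v5 + v6 + s ≠ r) →
    ∀ v7 : ZMod 4, (v0 + v7 + s ≠ 2 + r ∧ v1 + v7 ≠ 2 + r ∧ v2 + v7 + s ≠ 2 + r ∧ v5 + v7 ≠ r ∧ v6 + v7 + s ≠ r) →
    ∀ v8 : ZMod 4, (v5 + v8 + s ≠ r ∧ v6 + v8 ≠ r ∧ v7 + v8 + s ≠ r) →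
    ∀ v9 : ZMod 4, (v1 + v9 + s ≠ 2 + r ∧ v6 + v9 ≠ r ∧ v7 + v9 + s ≠ r) →
    ∀ v10 : ZMod 4, ¬ (v0 + v10 ≠ 2 + r ∧ v7 + v10 ≠ r ∧ v8 + v10 + s ≠ r ∧ v9 + v10 + s ≠ 2 + r) := by
  decide

end Pool.Agent.ModFour
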