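import Mathlib
import Pool.Agent.ModFour.Core

set_option autoImplicit false

/-!
# Values of quadratic forms at solutions of `n^2 + 1 = 2 m^2`
-/

namespace Pool.Agent.ModFour

/-- the form `m x^2 + 2 n x y + 2 m y^2` -/
def F (m n x y : ℤ) : ℤ := m * x ^ 2 + 2 * n * x * y + 2 * m * y ^ 2

/-- its polar form -/
def Bf (m n x y x' y' : ℤ) : ℤ := m * x * x' + n * (x * y' + x' * y) + 2 * m * y * y'

/-- the locations used: solutions of `n^2 + 1 = 2 m^2` with `n = m` modulo `1105` -/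
structure Loc (m n : ℤ) : Prop where
  /-- positivity -/
  hm : 0 < m
  /-- positivity -/
  hn : 0 < n
  /-- Pell equation -/
  pell : n ^ 2 + 1 = 2 * m ^ 2
  /-- congruence -/
  cong : (1105 : ℤ) ∣ n - m

variable {m n : ℤ}

theorem F_mul_F (h : n ^ 2 + 1 = 2 * m ^ 2) (x y x' y' : ℤ) :
    F m n x y * F m n x' y' = Bf m n x y x' y' ^ 2 + (x * y' - x' * y) ^ 2 := by
  unfold F Bf
  linear_combination (-(x * y' - x' * y) ^ 2) * h

theorem F_T (x y : ℤ) : F m n (2 * y) x = 2 * F m n x y := by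
  unfold F; ring

theorem Loc.two_n (L : Loc m n) : 2 * n ≤ 3 * m := by
  have h1 := L.hm
  have h2 := L.hn
  have h3 := L.pell
  nlinarith

theorem F_le (L : Loc m n) (x y : ℤ) : F m n x y ≤ (x ^ 2 + 2 * y ^ 2 + 3 * |x * y|) * m := by
  have h1 := L.hm
  have h2 := L.hn
  have h3 := L.two_n
  have h4 : x * y ≤ |x * y| := le_abs_self _
  have h5 : 0 ≤ |x * y| := abs_nonneg _
  have h6 : 2 * n * (x * y) ≤ 2 * n * |x * y| := by
    apply mul_le_mul_of_nonneg_left h4; linarith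
  have h7 : 2 * n * |x * y| ≤ 3 * m * |x * y| := mul_le_mul_of_nonneg_right h3 h5
  unfold F
  nlinarith

theorem F_pos (L : Loc m n) {x y : ℤ} (hxy : x ^ 2 ≠ 2 * y ^ 2) : 0 < F m n x y := by
  have h1 := L.hm
  have h3 := L.pell
  have h4 : m * F m n x y = (m * x + n * y) ^ 2 + y ^ 2 := by
    unfold F
    linear_combination (-y ^ 2) * h3
  have h5 : 0 < (m * x + n * y) ^ 2 + y ^ 2 := by
    by_cases hy : y = 0
    · subst hy
      have hx : x ≠ 0 := by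
        intro h; apply hxy; rw [h]; norm_num
      have : m * x ≠ 0 := mul_ne_zero h1.ne' hx
      have := pow_pos (abs_pos.mpr this) 2
      rw [sq_abs] at this
      simpa using this
    · have := pow_pos (abs_pos.mpr hy) 2
      rw [sq_abs] at this
      positivity
  rw [← h4] at h5
  by_contra hF
  push Not at hF
  nlinarith

theorem le_F (L : Loc m n) {x y : ℤ} (hxy : x ^ 2 ≠ 2 * y ^ 2) {K : ℤ}
    (hK : x ^ 2 + 2 * y ^ 2 + 3 * |x * y| ≤ K) : m ≤ K * F m n x y := by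
  have h1 := L.hm
  have h3 := L.pell
  have hF := F_pos L hxy
  have hneg := F_le L x (-y)
  have h4 : F m n x y * F m n x (-y) = m ^ 2 * (x ^ 2 - 2 * y ^ 2) ^ 2 + 4 * x ^ 2 * y ^ 2 := by
    unfold F
    linear_combination (-4 * x ^ 2 * y ^ 2) * h3
  have h5 : 1 ≤ (x ^ 2 - 2 * y ^ 2) ^ 2 := by
    have : x ^ 2 - 2 * y ^ 2 ≠ 0 := sub_ne_zero.mpr hxy
    have := pow_pos (abs_pos.mpr this) 2
    rw [sq_abs] at this
    linarith
  have h6 : m ^ 2 ≤ F m n x y * F m n x (-y) := by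
    rw [h4]
    have : m ^ 2 * 1 ≤ m ^ 2 * (x ^ 2 - 2 * y ^ 2) ^ 2 :=
      mul_le_mul_of_nonneg_left h5 (sq_nonneg m)
    nlinarith [sq_nonneg (x * y)]
  have h7 : F m n x (-y) ≤ K * m := by
    have h8 : (x ^ 2 + 2 * (-y) ^ 2 + 3 * |x * (-y)|) = x ^ 2 + 2 * y ^ 2 + 3 * |x * y| := by
      rw [mul_neg, abs_neg, neg_sq]
    rw [h8] at hneg
    exact hneg.trans (mul_le_mul_of_nonneg_right hK h1.le)
  have h9 : m ^ 2 ≤ (K * F m n x y) * m := by
    calc m ^ 2 ≤ F m n x y * F m n x (-y) := h6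
      _ ≤ F m n x y * (K * m) := mul_le_mul_of_nonneg_left h7 hF.le
      _ = (K * F m n x y) * m := by ring
  have h10 : m * m ≤ (K * F m n x y) * m := by rw [← sq]; exact h9
  exact le_of_mul_le_mul_right h10 h1

/-- the colour of a vector -/
def psi (g : ℕ → ZMod 4) (m n x y : ℤ) : ZMod 4 := g (F m n x y).natAbs

/-- complete additivity -/
def Add (g : ℕ → ZMod 4) : Prop := ∀ u v : ℕ, u ≠ 0 → v ≠ 0 → g (u * v) = g u + g v

theorem Add.one {g : ℕ → ZMod 4} (hg : Add g) : g 1 = 0 := by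
  have h := hg 1 1 one_ne_zero one_ne_zero
  simpa using h

theorem psi_T {g : ℕ → ZMod 4} (hg : Add g) (L : Loc m n) {x y : ℤ} (hxy : x ^ 2 ≠ 2 * y ^ 2) :
    psi g m n (2 * y) x = psi g m n x y + g 2 := by
  unfold psi
  have hF := F_pos L hxy
  rw [F_T, Int.natAbs_mul, hg _ _ (by norm_num) (Int.natAbs_ne_zero.mpr hF.ne')]
  rw [add_comm]
  rfl

theorem edge {g : ℕ → ZMod 4} (hg : Add g) (L : Loc m n) {x y x' y' : ℤ} {d : ℕ}
    (hd : 0 < d) (hd17 : d ≤ 17) (hdM : d ∣ 1105)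
    (hdet : (x * y' - x' * y) ^ 2 = (d : ℤ) ^ 2)
    (hB : (d : ℤ) ∣ x * x' + (x * y' + x' * y) + 2 * y * y')
    (hxy : x ^ 2 ≠ 2 * y ^ 2) (hxy' : x' ^ 2 ≠ 2 * y' ^ 2)
    (hK : x ^ 2 + 2 * y ^ 2 + 3 * |x * y| ≤ 600)
    (hK' : x' ^ 2 + 2 * y' ^ 2 + 3 * |x' * y'| ≤ 600) :
    ∃ N : ℕ, m ≤ 10200 * ((N : ℤ) + 1) ∧ (N : ℤ) ≤ 600 * m ∧
      psi g m n x y + psi g m n x' y' = 2 * g d + g (N ^ 2 + 1) := by
  have hm := L.hm
  have hP := F_pos L hxy
  have hQ := F_pos L hxy'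
  have hPQ := F_mul_F L.pell x y x' y'
  rw [hdet] at hPQ
  set P := F m n x y with hPdef
  set Q := F m n x' y' with hQdef
  set B := Bf m n x y x' y' with hBdef
  have hdB : (d : ℤ) ∣ B := by
    have h1 : (d : ℤ) ∣ n - m := (Int.natCast_dvd_natCast.mpr hdM).trans (by exact_mod_cast L.cong)
    have h2 : B = m * (x * x' + (x * y' + x' * y) + 2 * y * y') + (n - m) * (x * y' + x' * y) := by
      rw [hBdef]; unfold Bf; ring
    rw [h2]
    exact dvd_add (Dvd.dvd.mul_left hB m) (Dvd.dvd.mul_right h1 _)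
  obtain ⟨c, hc⟩ := hdB
  have hdpos : (0 : ℤ) < d := by exact_mod_cast hd
  have hprod : P * Q = (d : ℤ) ^ 2 * ((c.natAbs : ℤ) ^ 2 + 1) := by
    rw [hPQ, hc, Int.natCast_natAbs, sq_abs]; ring
  refine ⟨c.natAbs, ?_, ?_, ?_⟩
  · have h1 : m ≤ 600 * P := le_F L hxy hK
    have h2 : m ≤ 600 * Q := le_F L hxy' hK'
    have h3 : m * m ≤ (600 * P) * (600 * Q) := mul_le_mul h1 h2 hm.le (by positivity)
    have h4 : (600 * P) * (600 * Q) = 600 ^ 2 * ((d : ℤ) ^ 2 * ((c.natAbs : ℤ) ^ 2 + 1)) := by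
      rw [← hprod]; ring
    have h5 : (d : ℤ) ^ 2 ≤ 17 ^ 2 := by
      have : (d : ℤ) ≤ 17 := by exact_mod_cast hd17
      exact pow_le_pow_left₀ hdpos.le this 2
    have hN : (0 : ℤ) ≤ (c.natAbs : ℤ) := Int.natCast_nonneg _
    have h6 : (d : ℤ) ^ 2 * ((c.natAbs : ℤ) ^ 2 + 1) ≤ 17 ^ 2 * ((c.natAbs : ℤ) + 1) ^ 2 := by
      apply mul_le_mul h5 (by nlinarith) (by positivity) (by norm_num)
    have h7 : m ^ 2 ≤ (10200 * ((c.natAbs : ℤ) + 1)) ^ 2 := by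
      rw [h4] at h3
      nlinarith
    exact le_of_sq_le_sq h7 (by positivity) |> id
  · have h1 : P ≤ 600 * m := (F_le L x y).trans (mul_le_mul_of_nonneg_right hK hm.le)
    have h2 : Q ≤ 600 * m := (F_le L x' y').trans (mul_le_mul_of_nonneg_right hK' hm.le)
    have h3 : P * Q ≤ (600 * m) * (600 * m) := mul_le_mul h1 h2 hQ.le (by positivity)
    have h4 : (1 : ℤ) ≤ (d : ℤ) ^ 2 := by
      have : (1 : ℤ) ≤ d := by exact_mod_cast hd
      nlinarith
    have h5 : ((c.natAbs : ℤ)) ^ 2 ≤ (600 * m) ^ 2 := by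
      have h6 : ((c.natAbs : ℤ)) ^ 2 ≤ (d : ℤ) ^ 2 * ((c.natAbs : ℤ) ^ 2 + 1) := by
        nlinarith [sq_nonneg ((c.natAbs : ℤ))]
      rw [hprod] at h3
      nlinarith
    exact le_of_sq_le_sq h5 (by positivity) |> id
  · unfold psi
    rw [← hPdef, ← hQdef]
    have h1 : P.natAbs * Q.natAbs = (d * d) * (c.natAbs ^ 2 + 1) := by
      have : ((P.natAbs * Q.natAbs : ℕ) : ℤ) = ((d * d * (c.natAbs ^ 2 + 1) : ℕ) : ℤ) := by
        push_cast
        rw [abs_of_pos hP, abs_of_pos hQ, hprod, Int.natCast_natAbs]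
        ring
      exact_mod_cast this
    rw [← hg _ _ (Int.natAbs_ne_zero.mpr hP.ne') (Int.natAbs_ne_zero.mpr hQ.ne'), h1,
      hg _ _ (by positivity) (by positivity), hg _ _ hd.ne' hd.ne', two_mul]

end Pool.Agent.ModFour
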