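import Mathlib
import Pool.Agent.ModFour.Loc

set_option autoImplicit false

/-!
# Every class modulo four at a location
-/

namespace Pool.Agent.ModFour

variable {m n : ℤ}

/-- if the class `r` is missed near the location then adjacent colours avoid a sum -/
theorem ne0 {g : ℕ → ZMod 4} (hg : Add g) (L : Loc m n) {r : ZMod 4}
    (hno : ∀ N : ℕ, m ≤ 10200 * ((N : ℤ) + 1) → (N : ℤ) ≤ 600 * m → g (N ^ 2 + 1) ≠ r)
    (x y x' y' : ℤ) (d : ℕ) (hd : 0 < d) (hd17 : d ≤ 17) (hdM : d ∣ 1105)
    (hdet : (x * y' - x' * y) ^ 2 = (d : ℤ) ^ 2)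
    (hB : (d : ℤ) ∣ x * x' + (x * y' + x' * y) + 2 * y * y')
    (hxy : x ^ 2 ≠ 2 * y ^ 2) (hxy' : x' ^ 2 ≠ 2 * y' ^ 2)
    (hK : x ^ 2 + 2 * y ^ 2 + 3 * |x * y| ≤ 600)
    (hK' : x' ^ 2 + 2 * y' ^ 2 + 3 * |x' * y'| ≤ 600) :
    psi g m n x y + psi g m n x' y' ≠ 2 * g d + r := by
  obtain ⟨N, h1, h2, h3⟩ := edge hg L hd hd17 hdM hdet hB hxy hxy' hK hK'
  rw [h3]
  intro h
  exact hno N h1 h2 (add_left_cancel h)

/-- the same for an edge to the image `(2 y', x')` of `(x', y')` -/
theorem ne1 {g : ℕ → ZMod 4} (hg : Add g) (L : Loc m n) {r : ZMod 4}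
    (hno : ∀ N : ℕ, m ≤ 10200 * ((N : ℤ) + 1) → (N : ℤ) ≤ 600 * m → g (N ^ 2 + 1) ≠ r)
    (x y x' y' : ℤ) (d : ℕ) (hd : 0 < d) (hd17 : d ≤ 17) (hdM : d ∣ 1105)
    (hdet : (x * x' - (2 * y') * y) ^ 2 = (d : ℤ) ^ 2)
    (hB : (d : ℤ) ∣ x * (2 * y') + (x * x' + (2 * y') * y) + 2 * y * x')
    (hxy : x ^ 2 ≠ 2 * y ^ 2) (hxy' : x' ^ 2 ≠ 2 * y' ^ 2) (hxy2 : (2 * y') ^ 2 ≠ 2 * x' ^ 2)
    (hK : x ^ 2 + 2 * y ^ 2 + 3 * |x * y| ≤ 600)
    (hK' : (2 * y') ^ 2 + 2 * x' ^ 2 + 3 * |(2 * y') * x'| ≤ 600) :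
    psi g m n x y + psi g m n x' y' + g 2 ≠ 2 * g d + r := by
  have h := ne0 hg L hno x y (2 * y') x' d hd hd17 hdM hdet hB hxy hxy2 hK hK'
  rwa [psi_T hg L hxy', ← add_assoc] at h

theorem exists_odd {g : ℕ → ZMod 4} (hg : Add g) (h2 : g 2 = 1 ∨ g 2 = 3)
    (h5 : 2 * g 5 = 2) (L : Loc m n) {r : ZMod 4} (hr : r = 1 ∨ r = 3) :
    ∃ N : ℕ, m ≤ 10200 * ((N : ℤ) + 1) ∧ (N : ℤ) ≤ 600 * m ∧ g (N ^ 2 + 1) = r := by
  by_contra hcon
  have hno : ∀ N : ℕ, m ≤ 10200 * ((N : ℤ) + 1) → (N : ℤ) ≤ 600 * m → g (N ^ 2 + 1) ≠ r :=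
    fun N a b c => hcon ⟨N, a, b, c⟩
  have h1 : 2 * g 1 = 0 := by rw [hg.one, mul_zero]
  have k0 := ne1 hg L hno (1) (0) (1) (0) 1 (by norm_num) (by norm_num) (by norm_num)
    (by norm_num) (by norm_num) (by norm_num) (by norm_num) (by norm_num) (by norm_num) (by norm_num)
  rw [h1] at k0
  rw [zero_add] at k0
  have k1 := ne1 hg L hno (1) (-1) (1) (-1) 1 (by norm_num) (by norm_num) (by norm_num)
    (by norm_num) (by norm_num) (by norm_num) (by norm_num) (by norm_num) (by norm_num) (by norm_num)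
  rw [h1] at k1
  rw [zero_add] at k1
  have k2 := ne1 hg L hno (1) (-1) (1) (0) 1 (by norm_num) (by norm_num) (by norm_num)
    (by norm_num) (by norm_num) (by norm_num) (by norm_num) (by norm_num) (by norm_num) (by norm_num)
  rw [h1] at k2
  rw [zero_add] at k2
  have k3 := ne1 hg L hno (1) (1) (1) (1) 1 (by norm_num) (by norm_num) (by norm_num)
    (by norm_num) (by norm_num) (by norm_num) (by norm_num) (by norm_num) (by norm_num) (by norm_num)
  rw [h1] at k3
  rw [zero_add] at k3
  have k4 := ne1 hg L hno (1) (0) (1) (1) 1 (by norm_num) (by norm_num) (by norm_num)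
    (by norm_num) (by norm_num) (by norm_num) (by norm_num) (by norm_num) (by norm_num) (by norm_num)
  rw [h1] at k4
  rw [zero_add] at k4
  have k5 := ne1 hg L hno (1) (-1) (3) (-1) 1 (by norm_num) (by norm_num) (by norm_num)
    (by norm_num) (by norm_num) (by norm_num) (by norm_num) (by norm_num) (by norm_num) (by norm_num)
  rw [h1] at k5
  rw [zero_add] at k5
  have k6 := ne0 hg L hno (1) (0) (3) (-1) 1 (by norm_num) (by norm_num) (by norm_num)
    (by norm_num) (by norm_num) (by norm_num) (by norm_num) (by norm_num) (by norm_num)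
  rw [h1] at k6
  rw [zero_add] at k6
  have k7 := ne1 hg L hno (1) (1) (3) (-1) 5 (by norm_num) (by norm_num) (by norm_num)
    (by norm_num) (by norm_num) (by norm_num) (by norm_num) (by norm_num) (by norm_num) (by norm_num)
  rw [h5] at k7
  have k8 := ne0 hg L hno (1) (-2) (1) (-1) 1 (by norm_num) (by norm_num) (by norm_num)
    (by norm_num) (by norm_num) (by norm_num) (by norm_num) (by norm_num) (by norm_num)
  rw [h1] at k8
  rw [zero_add] at k8
  have k9 := ne1 hg L hno (1) (-2) (1) (0) 1 (by norm_num) (by norm_num) (by norm_num)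
    (by norm_num) (by norm_num) (by norm_num) (by norm_num) (by norm_num) (by norm_num) (by norm_num)
  rw [h1] at k9
  rw [zero_add] at k9
  have k10 := ne0 hg L hno (1) (-2) (3) (-1) 5 (by norm_num) (by norm_num) (by norm_num)
    (by norm_num) (by norm_num) (by norm_num) (by norm_num) (by norm_num) (by norm_num)
  rw [h5] at k10
  have k11 := ne1 hg L hno (1) (-2) (3) (-1) 1 (by norm_num) (by norm_num) (by norm_num)
    (by norm_num) (by norm_num) (by norm_num) (by norm_num) (by norm_num) (by norm_num) (by norm_num)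
  rw [h1] at k11
  rw [zero_add] at k11
  exact core_odd r hr (g 2) h2 _ k0 _ ⟨k1, k2⟩ _ ⟨k3, k4⟩ _ ⟨k5, k6, k7⟩ _ ⟨k8, k9, k10, k11⟩

theorem exists_even {g : ℕ → ZMod 4} (hg : Add g) (h2 : g 2 = 1 ∨ g 2 = 3)
    (h5 : 2 * g 5 = 2)
    (h13 : 2 * g 13 = 2) (h17 : 2 * g 17 = 2) (L : Loc m n) {r : ZMod 4} (hr : r = 0 ∨ r = 2) :
    ∃ N : ℕ, m ≤ 10200 * ((N : ℤ) + 1) ∧ (N : ℤ) ≤ 600 * m ∧ g (N ^ 2 + 1) = r := by
  by_contra hcon
  have hno : ∀ N : ℕ, m ≤ 10200 * ((N : ℤ) + 1) → (N : ℤ) ≤ 600 * m → g (N ^ 2 + 1) ≠ r :=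
    fun N a b c => hcon ⟨N, a, b, c⟩
  have h1 : 2 * g 1 = 0 := by rw [hg.one, mul_zero]
  have k0 := ne0 hg L hno (1) (1) (3) (4) 1 (by norm_num) (by norm_num) (by norm_num)
    (by norm_num) (by norm_num) (by norm_num) (by norm_num) (by norm_num) (by norm_num)
  rw [h1] at k0
  rw [zero_add] at k0
  have k1 := ne1 hg L hno (1) (1) (3) (4) 5 (by norm_num) (by norm_num) (by norm_num)
    (by norm_num) (by norm_num) (by norm_num) (by norm_num) (by norm_num) (by norm_num) (by norm_num)
  rw [h5] at k1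
  have k2 := ne0 hg L hno (1) (1) (7) (2) 5 (by norm_num) (by norm_num) (by norm_num)
    (by norm_num) (by norm_num) (by norm_num) (by norm_num) (by norm_num) (by norm_num)
  rw [h5] at k2
  have k3 := ne1 hg L hno (3) (4) (7) (2) 5 (by norm_num) (by norm_num) (by norm_num)
    (by norm_num) (by norm_num) (by norm_num) (by norm_num) (by norm_num) (by norm_num) (by norm_num)
  rw [h5] at k3
  have k4 := ne1 hg L hno (1) (1) (3) (1) 1 (by norm_num) (by norm_num) (by norm_num)
    (by norm_num) (by norm_num) (by norm_num) (by norm_num) (by norm_num) (by norm_num) (by norm_num)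
  rw [h1] at k4
  rw [zero_add] at k4
  have k5 := ne1 hg L hno (3) (4) (3) (1) 1 (by norm_num) (by norm_num) (by norm_num)
    (by norm_num) (by norm_num) (by norm_num) (by norm_num) (by norm_num) (by norm_num) (by norm_num)
  rw [h1] at k5
  rw [zero_add] at k5
  have k6 := ne0 hg L hno (7) (2) (3) (1) 1 (by norm_num) (by norm_num) (by norm_num)
    (by norm_num) (by norm_num) (by norm_num) (by norm_num) (by norm_num) (by norm_num)
  rw [h1] at k6
  rw [zero_add] at k6
  have k7 := ne1 hg L hno (7) (2) (3) (1) 17 (by norm_num) (by norm_num) (by norm_num)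
    (by norm_num) (by norm_num) (by norm_num) (by norm_num) (by norm_num) (by norm_num) (by norm_num)
  rw [h17] at k7
  have k8 := ne1 hg L hno (1) (1) (9) (5) 1 (by norm_num) (by norm_num) (by norm_num)
    (by norm_num) (by norm_num) (by norm_num) (by norm_num) (by norm_num) (by norm_num) (by norm_num)
  rw [h1] at k8
  rw [zero_add] at k8
  have k9 := ne1 hg L hno (3) (4) (9) (5) 13 (by norm_num) (by norm_num) (by norm_num)
    (by norm_num) (by norm_num) (by norm_num) (by norm_num) (by norm_num) (by norm_num) (by norm_num)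
  rw [h13] at k9
  have k10 := ne0 hg L hno (7) (2) (9) (5) 17 (by norm_num) (by norm_num) (by norm_num)
    (by norm_num) (by norm_num) (by norm_num) (by norm_num) (by norm_num) (by norm_num)
  rw [h17] at k10
  have k11 := ne1 hg L hno (3) (1) (9) (5) 17 (by norm_num) (by norm_num) (by norm_num)
    (by norm_num) (by norm_num) (by norm_num) (by norm_num) (by norm_num) (by norm_num) (by norm_num)
  rw [h17] at k11
  have k12 := ne0 hg L hno (1) (1) (1) (2) 1 (by norm_num) (by norm_num) (by norm_num)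
    (by norm_num) (by norm_num) (by norm_num) (by norm_num) (by norm_num) (by norm_num)
  rw [h1] at k12
  rw [zero_add] at k12
  have k13 := ne1 hg L hno (3) (4) (1) (2) 13 (by norm_num) (by norm_num) (by norm_num)
    (by norm_num) (by norm_num) (by norm_num) (by norm_num) (by norm_num) (by norm_num) (by norm_num)
  rw [h13] at k13
  have k14 := ne1 hg L hno (7) (2) (1) (2) 1 (by norm_num) (by norm_num) (by norm_num)
    (by norm_num) (by norm_num) (by norm_num) (by norm_num) (by norm_num) (by norm_num) (by norm_num)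
  rw [h1] at k14
  rw [zero_add] at k14
  have k15 := ne1 hg L hno (3) (1) (1) (2) 1 (by norm_num) (by norm_num) (by norm_num)
    (by norm_num) (by norm_num) (by norm_num) (by norm_num) (by norm_num) (by norm_num) (by norm_num)
  rw [h1] at k15
  rw [zero_add] at k15
  have k16 := ne0 hg L hno (9) (5) (1) (2) 13 (by norm_num) (by norm_num) (by norm_num)
    (by norm_num) (by norm_num) (by norm_num) (by norm_num) (by norm_num) (by norm_num)
  rw [h13] at k16
  have k17 := ne0 hg L hno (1) (1) (1) (0) 1 (by norm_num) (by norm_num) (by norm_num)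
    (by norm_num) (by norm_num) (by norm_num) (by norm_num) (by norm_num) (by norm_num)
  rw [h1] at k17
  rw [zero_add] at k17
  have k18 := ne1 hg L hno (1) (1) (1) (0) 1 (by norm_num) (by norm_num) (by norm_num)
    (by norm_num) (by norm_num) (by norm_num) (by norm_num) (by norm_num) (by norm_num) (by norm_num)
  rw [h1] at k18
  rw [zero_add] at k18
  have k19 := ne0 hg L hno (3) (1) (1) (0) 1 (by norm_num) (by norm_num) (by norm_num)
    (by norm_num) (by norm_num) (by norm_num) (by norm_num) (by norm_num) (by norm_num)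
  rw [h1] at k19
  rw [zero_add] at k19
  have k20 := ne1 hg L hno (1) (2) (1) (0) 1 (by norm_num) (by norm_num) (by norm_num)
    (by norm_num) (by norm_num) (by norm_num) (by norm_num) (by norm_num) (by norm_num) (by norm_num)
  rw [h1] at k20
  rw [zero_add] at k20
  have k21 := ne1 hg L hno (1) (1) (1) (3) 5 (by norm_num) (by norm_num) (by norm_num)
    (by norm_num) (by norm_num) (by norm_num) (by norm_num) (by norm_num) (by norm_num) (by norm_num)
  rw [h5] at k21
  have k22 := ne0 hg L hno (3) (4) (1) (3) 5 (by norm_num) (by norm_num) (by norm_num)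
    (by norm_num) (by norm_num) (by norm_num) (by norm_num) (by norm_num) (by norm_num)
  rw [h5] at k22
  have k23 := ne1 hg L hno (7) (2) (1) (3) 5 (by norm_num) (by norm_num) (by norm_num)
    (by norm_num) (by norm_num) (by norm_num) (by norm_num) (by norm_num) (by norm_num) (by norm_num)
  rw [h5] at k23
  have k24 := ne0 hg L hno (1) (2) (1) (3) 1 (by norm_num) (by norm_num) (by norm_num)
    (by norm_num) (by norm_num) (by norm_num) (by norm_num) (by norm_num) (by norm_num)
  rw [h1] at k24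
  rw [zero_add] at k24
  have k25 := ne1 hg L hno (1) (0) (1) (3) 1 (by norm_num) (by norm_num) (by norm_num)
    (by norm_num) (by norm_num) (by norm_num) (by norm_num) (by norm_num) (by norm_num) (by norm_num)
  rw [h1] at k25
  rw [zero_add] at k25
  have k26 := ne1 hg L hno (1) (2) (5) (1) 1 (by norm_num) (by norm_num) (by norm_num)
    (by norm_num) (by norm_num) (by norm_num) (by norm_num) (by norm_num) (by norm_num) (by norm_num)
  rw [h1] at k26
  rw [zero_add] at k26
  have k27 := ne0 hg L hno (1) (0) (5) (1) 1 (by norm_num) (by norm_num) (by norm_num)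
    (by norm_num) (by norm_num) (by norm_num) (by norm_num) (by norm_num) (by norm_num)
  rw [h1] at k27
  rw [zero_add] at k27
  have k28 := ne1 hg L hno (1) (3) (5) (1) 1 (by norm_num) (by norm_num) (by norm_num)
    (by norm_num) (by norm_num) (by norm_num) (by norm_num) (by norm_num) (by norm_num) (by norm_num)
  rw [h1] at k28
  rw [zero_add] at k28
  have k29 := ne1 hg L hno (3) (4) (7) (1) 13 (by norm_num) (by norm_num) (by norm_num)
    (by norm_num) (by norm_num) (by norm_num) (by norm_num) (by norm_num) (by norm_num) (by norm_num)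
  rw [h13] at k29
  have k30 := ne0 hg L hno (1) (0) (7) (1) 1 (by norm_num) (by norm_num) (by norm_num)
    (by norm_num) (by norm_num) (by norm_num) (by norm_num) (by norm_num) (by norm_num)
  rw [h1] at k30
  rw [zero_add] at k30
  have k31 := ne1 hg L hno (1) (3) (7) (1) 1 (by norm_num) (by norm_num) (by norm_num)
    (by norm_num) (by norm_num) (by norm_num) (by norm_num) (by norm_num) (by norm_num) (by norm_num)
  rw [h1] at k31
  rw [zero_add] at k31
  have k32 := ne0 hg L hno (1) (1) (3) (8) 5 (by norm_num) (by norm_num) (by norm_num)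
    (by norm_num) (by norm_num) (by norm_num) (by norm_num) (by norm_num) (by norm_num)
  rw [h5] at k32
  have k33 := ne0 hg L hno (1) (3) (3) (8) 1 (by norm_num) (by norm_num) (by norm_num)
    (by norm_num) (by norm_num) (by norm_num) (by norm_num) (by norm_num) (by norm_num)
  rw [h1] at k33
  rw [zero_add] at k33
  have k34 := ne1 hg L hno (5) (1) (3) (8) 1 (by norm_num) (by norm_num) (by norm_num)
    (by norm_num) (by norm_num) (by norm_num) (by norm_num) (by norm_num) (by norm_num) (by norm_num)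
  rw [h1] at k34
  rw [zero_add] at k34
  have k35 := ne1 hg L hno (7) (1) (3) (8) 5 (by norm_num) (by norm_num) (by norm_num)
    (by norm_num) (by norm_num) (by norm_num) (by norm_num) (by norm_num) (by norm_num) (by norm_num)
  rw [h5] at k35
  exact core_even r hr (g 2) h2 (psi g m n (1) (1))
    (psi g m n (3) (4)) ⟨k0, k1⟩
    (psi g m n (7) (2)) ⟨k2, k3⟩
    (psi g m n (3) (1)) ⟨k4, k5, k6, k7⟩
    (psi g m n (9) (5)) ⟨k8, k9, k10, k11⟩
    (psi g m n (1) (2)) ⟨k12, k13, k14, k15, k16⟩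
    (psi g m n (1) (0)) ⟨k17, k18, k19, k20⟩
    (psi g m n (1) (3)) ⟨k21, k22, k23, k24, k25⟩
    (psi g m n (5) (1)) ⟨k26, k27, k28⟩
    (psi g m n (7) (1)) ⟨k29, k30, k31⟩
    (psi g m n (3) (8)) ⟨k32, k33, k34, k35⟩

end Pool.Agent.ModFour
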