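import Mathlib
import Pool.Agent.ModFour.Classes

set_option autoImplicit false

/-!
# Counting along a Pell sequence
-/

namespace Pool.Agent.ModFour

/-- first coordinate of `(3 + 2 √2)^84` -/
def uA : ℤ := 10122438366048739045860854232589359916350238648910515500799041601

/-- second coordinate of `(3 + 2 √2)^84` -/
def uB : ℤ := 7157644810775939373914200292428409592558069316197734563034354040

/-- a sequence of solutions of `n^2 + 1 = 2 m^2` -/
def loc : ℕ → ℤ × ℤ
  | 0 => (1, 1)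
  | k + 1 => (uA * (loc k).1 + uB * (loc k).2, 2 * uB * (loc k).1 + uA * (loc k).2)

theorem loc_Loc (k : ℕ) : Loc (loc k).1 (loc k).2 := by
  induction k with
  | zero =>
    constructor <;> norm_num [loc]
  | succ k ih =>
    obtain ⟨h1, h2, h3, h4⟩ := ih
    have hA : (0 : ℤ) < uA := by norm_num [uA]
    have hB : (0 : ℤ) < uB := by norm_num [uB]
    have hu : uA ^ 2 - 2 * uB ^ 2 = 1 := by norm_num [uA, uB]
    have hd : (1105 : ℤ) ∣ uB := by norm_num [uB]
    refine ⟨?_, ?_, ?_, ?_⟩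
    · simp only [loc]; positivity
    · simp only [loc]; positivity
    · simp only [loc]
      linear_combination (uA ^ 2 - 2 * uB ^ 2) * h3 - hu
    · simp only [loc]
      have : 2 * uB * (loc k).1 + uA * (loc k).2 - (uA * (loc k).1 + uB * (loc k).2) =
          uA * ((loc k).2 - (loc k).1) + uB * (2 * (loc k).1 - (loc k).2) := by ring
      rw [this]
      exact dvd_add (Dvd.dvd.mul_left h4 _) (Dvd.dvd.mul_right hd _)

theorem loc_lower (k : ℕ) : 10 ^ 64 * (loc k).1 ≤ (loc (k + 1)).1 := by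
  have h := loc_Loc k
  have h1 := h.hm
  have h2 := h.hn
  have hA : (10 ^ 64 : ℤ) ≤ uA := by norm_num [uA]
  have hB : (0 : ℤ) < uB := by norm_num [uB]
  simp only [loc]
  have h3 : 10 ^ 64 * (loc k).1 ≤ uA * (loc k).1 := mul_le_mul_of_nonneg_right hA h1.le
  have h4 : 0 ≤ uB * (loc k).2 := by positivity
  linarith

theorem loc_upper (k : ℕ) : (loc k).1 ≤ (10 ^ 65) ^ k := by
  induction k with
  | zero => simp [loc]
  | succ k ih =>
    have h := loc_Loc k
    have h1 := h.hm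
    have h2 := h.hn
    have h3 := h.two_n
    have hB : (0 : ℤ) < uB := by norm_num [uB]
    have hAB : uA + 2 * uB ≤ 10 ^ 65 := by norm_num [uA, uB]
    have h4 : (loc k).2 ≤ 2 * (loc k).1 := by linarith
    have h5 : uB * (loc k).2 ≤ uB * (2 * (loc k).1) := mul_le_mul_of_nonneg_left h4 hB.le
    calc (loc (k + 1)).1 = uA * (loc k).1 + uB * (loc k).2 := rfl
      _ ≤ (uA + 2 * uB) * (loc k).1 := by linarith
      _ ≤ 10 ^ 65 * (loc k).1 := mul_le_mul_of_nonneg_right hAB h1.le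
      _ ≤ 10 ^ 65 * (10 ^ 65) ^ k := mul_le_mul_of_nonneg_left ih (by positivity)
      _ = (10 ^ 65) ^ (k + 1) := (pow_succ' ((10 : ℤ) ^ 65) k).symm

theorem exists_class {g : ℕ → ZMod 4} (hg : Add g)
    (hp : ∀ p ∈ ({2, 5, 13, 17} : Finset ℕ), g p = 1 ∨ g p = 3) (r : ZMod 4) (k : ℕ) :
    ∃ N : ℕ, (loc k).1 ≤ 10200 * ((N : ℤ) + 1) ∧ (N : ℤ) ≤ 600 * (loc k).1 ∧
      g (N ^ 2 + 1) = r := by
  have two : ∀ x : ZMod 4, (x = 1 ∨ x = 3) → 2 * x = 2 := by decide
  have h2 := hp 2 (by simp)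
  have h5 := two _ (hp 5 (by simp))
  have h13 := two _ (hp 13 (by simp))
  have h17 := two _ (hp 17 (by simp))
  have hr : (r = 1 ∨ r = 3) ∨ (r = 0 ∨ r = 2) := by
    revert r; decide
  rcases hr with hr | hr
  · exact exists_odd hg h2 h5 (loc_Loc k) hr
  · exact exists_even hg h2 h5 h13 h17 (loc_Loc k) hr

/-- a strictly increasing sequence of `a` with `g (a^2+1) = r` and controlled growth -/
theorem exists_seq {g : ℕ → ZMod 4} (hg : Add g)
    (hp : ∀ p ∈ ({2, 5, 13, 17} : Finset ℕ), g p = 1 ∨ g p = 3) (r : ZMod 4) :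
    ∃ N : ℕ → ℕ, StrictMono N ∧ (∀ k, g (N k ^ 2 + 1) = r) ∧
      ∀ k, (N k : ℤ) ≤ 600 * (10 ^ 65) ^ k := by
  choose N h1 h2 h3 using exists_class hg hp r
  refine ⟨N, strictMono_nat_of_lt_succ ?_, h3, ?_⟩
  · intro k
    have a1 := h1 (k + 1)
    have a2 := h2 k
    have a3 := loc_lower k
    have a4 := (loc_Loc k).hm
    have : (N k : ℤ) < N (k + 1) := by
      have a5 : (1 : ℤ) ≤ (loc k).1 := a4
      have a6 : (10 : ℤ) ^ 64 * (loc k).1 ≤ 10200 * ((N (k + 1) : ℤ) + 1) := a3.trans a1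
      have a7 : (10200 : ℤ) * (600 * (loc k).1 + 2) ≤ (10 : ℤ) ^ 64 * (loc k).1 := by
        norm_num
        linarith
      linarith
    exact_mod_cast this
  · intro k
    exact (h2 k).trans (mul_le_mul_of_nonneg_left (loc_upper k) (by norm_num))

theorem log_ten_pow : 65 * Real.log 10 ≤ 151 := by
  have h1 : Real.log ((10 : ℝ) ^ 3) ≤ Real.log ((2 : ℝ) ^ 10) :=
    Real.log_le_log (by norm_num) (by norm_num)
  rw [Real.log_pow, Real.log_pow] at h1
  have h2 := Real.log_two_lt_d9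
  push_cast at h1
  nlinarith

/-- For large `X` and all `g`, each class contains at least `(log X)/200` numbers. -/
theorem count : ∃ X0 : ℕ, ∀ X : ℕ, X0 ≤ X → ∀ g : ℕ → ZMod 4, Add g →
    (∀ p ∈ ({2, 5, 13, 17} : Finset ℕ), g p = 1 ∨ g p = 3) → ∀ r : ZMod 4,
    Real.log X / 200 ≤ ((Finset.Icc 1 X).filter (fun a => g (a ^ 2 + 1) = r)).card := by
  refine ⟨⌈Real.exp 800⌉₊, fun X hX g hg hp r => ?_⟩
  have hXr : Real.exp 800 ≤ (X : ℝ) := (Nat.le_ceil _).trans (by exact_mod_cast hX)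
  have hX0 : (0 : ℝ) < X := (Real.exp_pos _).trans_le hXr
  have hlog : 800 ≤ Real.log X := by
    rw [← Real.log_exp 800]; exact Real.log_le_log (Real.exp_pos _) hXr
  obtain ⟨N, hN, hgN, hNb⟩ := exists_seq hg hp r
  set K := ⌊Real.log X / 160⌋₊ with hK
  have hK1 : (K : ℝ) ≤ Real.log X / 160 := Nat.floor_le (by positivity)
  have hK2 : Real.log X / 160 < K + 1 := Nat.lt_floor_add_one _
  have hbound : (600 : ℝ) * (10 ^ 65) ^ K ≤ X := by
    have h1 : Real.log (600 * (10 ^ 65) ^ K) ≤ Real.log X := by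
      rw [Real.log_mul (by norm_num) (by positivity), ← pow_mul, Real.log_pow]
      have h600 : Real.log 600 ≤ 7 := by
        have : Real.log 600 ≤ Real.log ((2 : ℝ) ^ 10) :=
          Real.log_le_log (by norm_num) (by norm_num)
        rw [Real.log_pow] at this
        have h2 := Real.log_two_lt_d9
        push_cast at this
        linarith
      have h3 := log_ten_pow
      have h4 : ((65 * K : ℕ) : ℝ) * Real.log 10 ≤ 151 * K := by
        push_cast
        have : (0 : ℝ) ≤ K := Nat.cast_nonneg _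
        nlinarith
      linarith
    exact (Real.log_le_log_iff (by positivity) hX0).mp h1
  have hsub : (Finset.Icc 1 K).image N ⊆
      (Finset.Icc 1 X).filter (fun a => g (a ^ 2 + 1) = r) := by
    intro a ha
    rw [Finset.mem_image] at ha
    obtain ⟨k, hk, rfl⟩ := ha
    rw [Finset.mem_Icc] at hk
    rw [Finset.mem_filter, Finset.mem_Icc]
    refine ⟨⟨?_, ?_⟩, hgN k⟩
    · exact hk.1.trans (hN.le_apply)
    · have h1 : ((N k : ℤ) : ℝ) ≤ ((600 * (10 ^ 65) ^ k : ℤ) : ℝ) := Int.cast_le.mpr (hNb k)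
      have h2 : ((10 : ℝ) ^ 65) ^ k ≤ (10 ^ 65) ^ K := pow_le_pow_right₀ (by norm_num) hk.2
      have h3 : ((N k : ℕ) : ℝ) ≤ X := by
        simp only [Int.cast_mul, Int.cast_pow, Int.cast_ofNat, Int.cast_natCast] at h1
        linarith
      exact_mod_cast h3
  have hcard : K ≤ ((Finset.Icc 1 X).filter (fun a => g (a ^ 2 + 1) = r)).card := by
    calc K = ((Finset.Icc 1 K).image N).card := by
          rw [Finset.card_image_of_injective _ hN.injective, Nat.card_Icc]; simp
      _ ≤ _ := Finset.card_le_card hsub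
  have hcard' : (K : ℝ) ≤ ((Finset.Icc 1 X).filter (fun a => g (a ^ 2 + 1) = r)).card := by
    exact_mod_cast hcard
  linarith

end Pool.Agent.ModFour
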